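import Pool.Agent.U174.AK.Stm

/-!
# Project AK, package HEN: Hensel's lemma for polynomials which need not be monic
-/

set_option autoImplicit false

namespace Pool.Agent.U730.AK.HEN

open Polynomial Pool.Agent.U174.AK

/-- the coefficients of the reversed polynomial -/
lemma coeff_mem {K : Type} [Field K] (O : ValuationSubring K) (Q : K[X])
    (h0 : O.valuation (Q.coeff 0) < 1) (h1 : O.valuation (Q.coeff 1) = 1)
    (hi : ∀ i, O.valuation (Q.coeff i) ≤ 1) (hc : Q.coeff 0 ≠ 0) (j : ℕ) :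
    O.valuation (Q.coeff (j + 2) * (-(Q.coeff 0 / Q.coeff 1)) ^ (j + 2) / Q.coeff 0) < 1 := by
  have hv0 : O.valuation (Q.coeff 0) ≠ 0 := by simpa using hc
  rw [map_div₀, map_mul, map_pow, Valuation.map_neg, map_div₀, h1, div_one, pow_succ, ← mul_assoc,
    mul_div_assoc, div_self hv0, mul_one]
  calc O.valuation (Q.coeff (j + 2)) * O.valuation (Q.coeff 0) ^ (j + 1)
      ≤ 1 * O.valuation (Q.coeff 0) ^ (j + 1) := by
        gcongr
        exact hi _
    _ = O.valuation (Q.coeff 0) ^ (j + 1) := one_mul _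
    _ < 1 := pow_lt_one₀ (zero_le) h0 (by omega)

theorem t_HEN : S_HEN := by
  intro K _ O hH Q h0 h1 hi
  by_cases hc : Q.coeff 0 = 0
  · refine ⟨0, ?_, ?_⟩
    · rw [← Polynomial.coeff_zero_eq_eval_zero]
      exact hc
    · rw [hc]
  have hv0 : O.valuation (Q.coeff 0) ≠ 0 := by simpa using hc
  have hc1 : Q.coeff 1 ≠ 0 := by
    intro h
    rw [h, map_zero] at h1
    exact zero_ne_one h1
  obtain ⟨u, hu⟩ : ∃ u, u = -(Q.coeff 0 / Q.coeff 1) := ⟨_, rfl⟩
  have hvu : O.valuation u = O.valuation (Q.coeff 0) := by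
    rw [hu, Valuation.map_neg, map_div₀, h1, div_one]
  have hmem : ∀ j : ℕ, O.valuation (Q.coeff (j + 2) * u ^ (j + 2) / Q.coeff 0) < 1 := by
    intro j
    rw [hu]
    exact coeff_mem O Q h0 h1 hi hc j
  let e : ℕ → O := fun j => ⟨Q.coeff (j + 2) * u ^ (j + 2) / Q.coeff 0,
    O.mem_of_valuation_le_one _ (hmem j).le⟩
  have he : ∀ j, e j ∈ IsLocalRing.maximalIdeal O := by
    intro j
    rw [ValuationSubring.valuation_lt_one_iff]
    exact hmem j
  obtain ⟨m, hm⟩ : ∃ m, m = Q.natDegree := ⟨_, rfl⟩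
  let g : O[X] := ∑ j ∈ Finset.range (m + 1), C (e j) * X ^ (m - j)
  let f : O[X] := X ^ (m + 2) + (-X ^ (m + 1) + g)
  have hgdeg : g.degree < ((m + 2 : ℕ) : WithBot ℕ) := by
    refine lt_of_le_of_lt (Polynomial.degree_sum_le _ _) ?_
    rw [Finset.sup_lt_iff (WithBot.bot_lt_coe _)]
    intro j hj
    refine lt_of_le_of_lt (Polynomial.degree_C_mul_X_pow_le _ _) ?_
    exact_mod_cast (by omega : m - j < m + 2)
  have hfm : f.Monic := by
    apply Polynomial.monic_X_pow_add
    refine lt_of_le_of_lt (Polynomial.degree_add_le _ _) ?_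
    rw [max_lt_iff]
    refine ⟨?_, hgdeg⟩
    rw [Polynomial.degree_neg]
    refine lt_of_le_of_lt (Polynomial.degree_X_pow_le _) ?_
    exact_mod_cast (by omega : m + 1 < m + 2)
  have hf1 : f.eval 1 ∈ IsLocalRing.maximalIdeal O := by
    have : f.eval 1 = ∑ j ∈ Finset.range (m + 1), e j := by
      simp only [f, g, eval_add, eval_neg, eval_pow, eval_X, one_pow, eval_finsetSum, eval_mul,
        eval_C, mul_one]
      ring
    rw [this]
    exact Ideal.sum_mem _ fun j _ => he j
  have hf2 : IsUnit (f.derivative.eval 1) := by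
    have h3 : f.derivative.eval 1 = 1 + ∑ j ∈ Finset.range (m + 1), e j * ((m - j : ℕ) : O) := by
      simp only [f, g, derivative_add, derivative_neg, derivative_X_pow, derivative_sum,
        derivative_mul, derivative_C, zero_mul, zero_add, eval_add, eval_neg, eval_mul, eval_C,
        eval_pow, eval_X, one_pow, mul_one, eval_finsetSum, eval_natCast]
      push_cast
      ring
    rw [h3]
    by_contra hcon
    have h4 : (1 + ∑ j ∈ Finset.range (m + 1), e j * ((m - j : ℕ) : O)) ∈
        IsLocalRing.maximalIdeal O := by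
      rwa [IsLocalRing.mem_maximalIdeal, mem_nonunits_iff]
    have h5 : (∑ j ∈ Finset.range (m + 1), e j * ((m - j : ℕ) : O)) ∈
        IsLocalRing.maximalIdeal O :=
      Ideal.sum_mem _ fun j _ => Ideal.mul_mem_right _ _ (he j)
    have h6 : (1 : O) ∈ IsLocalRing.maximalIdeal O := by
      have := Ideal.sub_mem _ h4 h5
      simpa using this
    exact (Ideal.ne_top_iff_one _).1 (IsLocalRing.maximalIdeal.isMaximal O).ne_top h6
  obtain ⟨T, hT, hT1⟩ := hH.is_henselian f hfm 1 hf1 hf2
  have hTv : O.valuation (T : K) = 1 := by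
    rw [← ValuationSubring.valuation_eq_one_iff]
    by_contra hcon
    have h4 : T ∈ IsLocalRing.maximalIdeal O := by
      rwa [IsLocalRing.mem_maximalIdeal, mem_nonunits_iff]
    have h6 : (1 : O) ∈ IsLocalRing.maximalIdeal O := by
      have := Ideal.sub_mem _ h4 hT1
      simpa using this
    exact (Ideal.ne_top_iff_one _).1 (IsLocalRing.maximalIdeal.isMaximal O).ne_top h6
  have hT0 : (T : K) ≠ 0 := by
    intro h
    rw [h, map_zero] at hTv
    exact zero_ne_one hTv
  refine ⟨u / T, ?_, ?_⟩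
  · have h7 : (f.eval T : O) = 0 := hT
    have h8 : ((T : K) ^ (m + 2) + (-(T : K) ^ (m + 1) +
        ∑ j ∈ Finset.range (m + 1), Q.coeff (j + 2) * u ^ (j + 2) / Q.coeff 0 *
          (T : K) ^ (m - j))) = 0 := by
      have h9 := congrArg (fun z : O => (z : K)) h7
      simpa [f, g, eval_finsetSum, e] using h9
    have h10 : Q.eval (u / (T : K)) = ∑ i ∈ Finset.range (m + 3), Q.coeff i * (u / (T : K)) ^ i := by
      rw [Polynomial.eval_eq_sum_range' (by omega : Q.natDegree < m + 3)]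
    rw [h10, Finset.sum_range_succ', Finset.sum_range_succ']
    have h11 : ∑ k ∈ Finset.range (m + 1), Q.coeff (k + 1 + 1) * (u / (T : K)) ^ (k + 1 + 1)
        = Q.coeff 0 * (T : K)⁻¹ ^ (m + 2) *
          ∑ j ∈ Finset.range (m + 1), Q.coeff (j + 2) * u ^ (j + 2) / Q.coeff 0 *
          (T : K) ^ (m - j) := by
      rw [Finset.mul_sum]
      refine Finset.sum_congr rfl fun j hj => ?_
      have hj' : j ≤ m := by
        have := Finset.mem_range.1 hj
        omega
      obtain ⟨k, hk⟩ := Nat.exists_eq_add_of_le hj'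
      have : m - j = k := by omega
      rw [this]
      have h12 : (T : K)⁻¹ ^ (m + 2) * (T : K) ^ k = (T : K)⁻¹ ^ (j + 2) := by
        rw [hk, show j + k + 2 = (j + 2) + k by ring, pow_add, mul_assoc, ← mul_pow,
          inv_mul_cancel₀ hT0, one_pow, mul_one]
      calc Q.coeff (j + 1 + 1) * (u / (T : K)) ^ (j + 1 + 1)
          = Q.coeff (j + 2) * u ^ (j + 2) * (T : K)⁻¹ ^ (j + 2) := by
            rw [div_eq_mul_inv, mul_pow]; ring
        _ = Q.coeff (j + 2) * u ^ (j + 2) * ((T : K)⁻¹ ^ (m + 2) * (T : K) ^ k) := by rw [h12]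
        _ = _ := by field_simp
    rw [h11]
    have h13 : ∑ j ∈ Finset.range (m + 1), Q.coeff (j + 2) * u ^ (j + 2) / Q.coeff 0 *
          (T : K) ^ (m - j) = (T : K) ^ (m + 1) - (T : K) ^ (m + 2) := by
      linear_combination h8
    rw [h13]
    have h14 : Q.coeff 0 * (T : K)⁻¹ ^ (m + 2) * ((T : K) ^ (m + 1) - (T : K) ^ (m + 2))
        = Q.coeff 0 * ((T : K)⁻¹ - 1) := by
      rw [mul_assoc]
      congr 1
      rw [mul_sub, ← mul_pow, inv_mul_cancel₀ hT0, one_pow, pow_succ, mul_comm ((T : K)⁻¹ ^ (m + 1)),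
        mul_assoc, ← mul_pow, inv_mul_cancel₀ hT0, one_pow, mul_one]
    rw [h14, hu]
    simp only [zero_add, pow_one, pow_zero, mul_one]
    field_simp
    ring
  · rw [map_div₀, hTv, div_one, hvu]

end Pool.Agent.U730.AK.HEN
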